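import Mathlib

/-!
# A height bound for the equivalence of deterministic top-down tree transducers that depends only
on the numbers of states
-/

set_option autoImplicit false

namespace Pool.Agent.Results.MP_460c01_lc.StateHeightBound

/-- Trees over a ranked alphabet, given by the ranks `ar f` of the symbols `f`. -/
inductive Tree {F : Type} (ar : F → ℕ) : Type
  | node (f : F) (ch : Fin (ar f) → Tree ar) : Tree ar

/-- Trees over a ranked alphabet whose leaves may also be variables from `X`. -/
inductive Tm {F : Type} (ar : F → ℕ) (X : Type) : Type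
  | var (x : X) : Tm ar X
  | node (f : F) (ch : Fin (ar f) → Tm ar X) : Tm ar X

section Defs

variable {F : Type} {ar : F → ℕ}

/-- the height of a tree: the number of nodes on a longest path from the root to a leaf -/
def Tree.height : Tree ar → ℕ
  | .node _ ch => 1 + Finset.univ.sup fun i => (ch i).height

/-- The tree obtained from `t` by replacing each variable `x` by the tree `e x`; it is undefined if
`e x` is undefined for some variable `x` that occurs in `t`. -/
def Tm.rhs {X : Type} (e : X → Option (Tree ar)) : Tm ar X → Option (Tree ar)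
  | .var x => e x
  | .node f ch =>
    if h : ∀ i, ((ch i).rhs e).isSome then some (.node f fun i => ((ch i).rhs e).get (h i))
    else none

end Defs

/-- A deterministic top-down tree transducer from the ranked alphabet `S` to the ranked alphabet
`D`: a finite set of states, an initial state, and for each state `q` and input symbol `σ` at most
one rule `q(σ(x₁, …, xₖ)) → ζ`, where the leaves of `ζ` may be of the form `q'(xᵢ)`, which is
written as the variable `(q', i)`. -/
structure DT {S D : Type} (rS : S → ℕ) (rD : D → ℕ) where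
  Q : Type
  [fin : Fintype Q]
  q0 : Q
  R : Q → (σ : S) → Option (Tm rD (Q × Fin (rS σ)))

attribute [instance] DT.fin

variable {S D : Type} {rS : S → ℕ} {rD : D → ℕ}

/-- the output of the state `q` on the tree `s` -/
def DT.out (M : DT rS rD) : Tree rS → M.Q → Option (Tree rD)
  | .node σ ch, q => match M.R q σ with
    | none => none
    | some ζ => ζ.rhs fun x => M.out (ch x.2) x.1

/-- the partial function realized by the transducer -/
def DT.τ (M : DT rS rD) (s : Tree rS) : Option (Tree rD) := M.out s M.q0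

/-! ### Terms -/

section Terms

variable {F : Type} {ar : F → ℕ} {X Y Z : Type}

/-- the size of a tree -/
def Tree.size : Tree ar → ℕ
  | .node _ ch => 1 + ∑ i, (ch i).size

/-- a tree as a term -/
def Tree.lift : Tree ar → Tm ar X
  | .node f ch => .node f fun i => (ch i).lift

/-- the value of a term -/
def Tm.ev (u : X → Tree ar) : Tm ar X → Tree ar
  | .var x => u x
  | .node f ch => .node f fun i => (ch i).ev u

/-- substitution -/
def Tm.subst (ρ : X → Tm ar Y) : Tm ar X → Tm ar Y
  | .var x => ρ x
  | .node f ch => .node f fun i => (ch i).subst ρ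

/-- occurrence of a variable -/
def Tm.occ : Tm ar X → X → Prop
  | .var x, y => x = y
  | .node _ ch, y => ∃ i, (ch i).occ y

theorem ev_lift (t : Tree ar) (u : X → Tree ar) : (t.lift : Tm ar X).ev u = t := by
  induction t with
  | node f ch ih =>
    simp only [Tree.lift, Tm.ev]
    congr 1
    funext i
    exact ih i

theorem ev_subst (t : Tm ar X) (ρ : X → Tm ar Y) (u : Y → Tree ar) :
    (t.subst ρ).ev u = t.ev fun x => (ρ x).ev u := by
  induction t with
  | var x => rfl
  | node f ch ih =>
    simp only [Tm.subst, Tm.ev]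
    congr 1
    funext i
    exact ih i

theorem size_le_of_occ (t : Tm ar X) (x : X) (u : X → Tree ar) (h : t.occ x) :
    (u x).size ≤ (t.ev u).size := by
  induction t with
  | var y => rw [show y = x from h]; rfl
  | node f ch ih =>
    obtain ⟨i, hi⟩ := h
    refine (ih i hi).trans ?_
    simp only [Tm.ev, Tree.size]
    have : ((ch i).ev u).size ≤ ∑ i, ((ch i).ev u).size :=
      Finset.single_le_sum (f := fun i => ((ch i).ev u).size) (fun _ _ => Nat.zero_le _)
        (Finset.mem_univ i)
    omega

theorem size_lt_of_occ {f : F} {ch : Fin (ar f) → Tm ar X} (x : X) (u : X → Tree ar)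
    (h : (Tm.node f ch).occ x) : (u x).size < ((Tm.node f ch).ev u).size := by
  obtain ⟨i, hi⟩ := h
  have h1 := size_le_of_occ (ch i) x u hi
  simp only [Tm.ev, Tree.size]
  have : ((ch i).ev u).size ≤ ∑ i, ((ch i).ev u).size :=
    Finset.single_le_sum (f := fun i => ((ch i).ev u).size) (fun _ _ => Nat.zero_le _)
      (Finset.mem_univ i)
  omega

theorem restrict (t : Tm ar X) (j : X) (h : ¬ t.occ j) :
    ∃ r : Tm ar {i // i ≠ j}, ∀ u : X → Tree ar, t.ev u = r.ev fun i => u i.1 := by
  induction t with
  | var y => exact ⟨.var ⟨y, h⟩, fun u => rfl⟩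
  | node f ch ih =>
    have h1 : ∀ i, ∃ r : Tm ar {i // i ≠ j}, ∀ u : X → Tree ar, (ch i).ev u =
      r.ev fun i => u i.1 := fun i => ih i fun hi => h ⟨i, hi⟩
    choose r hr using h1
    refine ⟨.node f r, fun u => ?_⟩
    simp only [Tm.ev]
    congr 1
    funext i
    exact hr i u

/-- A nontrivial equation with a solution expresses a variable by the others. -/
theorem solve (t1 : Tm ar X) : ∀ (t2 : Tm ar X), t1 ≠ t2 → (∃ u0 : X → Tree ar,
    t1.ev u0 = t2.ev u0) → ∃ (j : X) (r : Tm ar {i // i ≠ j}), ∀ u : X → Tree ar,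
      t1.ev u = t2.ev u → u j = r.ev fun i => u i.1 := by
  induction t1 with
  | var x =>
    intro t2 hne hu
    cases t2 with
    | var y => exact ⟨x, .var ⟨y, fun h => hne (by rw [h])⟩, fun u hu => hu⟩
    | node g ch' =>
      obtain ⟨u0, hu0⟩ := hu
      have h1 : ¬ (Tm.node g ch').occ x := by
        intro h
        have h2 := size_lt_of_occ x u0 h
        rw [← hu0] at h2
        exact lt_irrefl _ h2
      obtain ⟨r, hr⟩ := restrict _ x h1
      exact ⟨x, r, fun u hu => by rw [← hr, ← hu]; rfl⟩
  | node f ch ih =>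
    intro t2 hne hu
    cases t2 with
    | var x =>
      obtain ⟨u0, hu0⟩ := hu
      have h1 : ¬ (Tm.node f ch).occ x := by
        intro h
        have h2 := size_lt_of_occ x u0 h
        rw [hu0] at h2
        exact lt_irrefl _ h2
      obtain ⟨r, hr⟩ := restrict _ x h1
      exact ⟨x, r, fun u hu => by rw [← hr, hu]; rfl⟩
    | node g ch' =>
      obtain ⟨u0, hu0⟩ := hu
      have hfg : f = g := by
        simp only [Tm.ev, Tree.node.injEq] at hu0
        exact hu0.1
      subst hfg
      have key : ∀ u : X → Tree ar, (Tm.node f ch).ev u = (Tm.node f ch').ev u →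
          ∀ i, (ch i).ev u = (ch' i).ev u := by
        intro u hu i
        simp only [Tm.ev, Tree.node.injEq, heq_eq_eq, true_and] at hu
        exact congrFun hu i
      obtain ⟨i, hi⟩ : ∃ i, ch i ≠ ch' i := by
        by_contra hcon
        push Not at hcon
        exact hne (by rw [funext hcon])
      obtain ⟨j, r, hr⟩ := ih i (ch' i) hi ⟨u0, key u0 hu0 i⟩
      exact ⟨j, r, fun u hu => hr u (key u hu i)⟩

/-- the set `A` of valuations is contained in the set of values of terms in `k` parameters -/
def Par (A : Set (X → Tree ar)) (k : ℕ) : Prop :=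
  ∃ (Y : Type) (_ : Fintype Y) (ρ : X → Tm ar Y), Fintype.card Y ≤ k ∧
    ∀ v ∈ A, ∃ u : Y → Tree ar, ∀ x, v x = (ρ x).ev u

theorem par_card [Fintype X] (A : Set (X → Tree ar)) : Par A (Fintype.card X) :=
  ⟨X, inferInstance, Tm.var, le_rfl, fun v _ => ⟨v, fun _ => rfl⟩⟩

open scoped Classical in
/-- the rank of a set of valuations -/
noncomputable def rank (A : Set (X → Tree ar)) : ℕ := sInf {k | Par A k}

theorem rank_le [Fintype X] (A : Set (X → Tree ar)) : rank A ≤ Fintype.card X :=
  Nat.sInf_le (par_card A)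

theorem par_rank [Fintype X] (A : Set (X → Tree ar)) : Par A (rank A) :=
  Nat.sInf_mem (s := {k | Par A k}) ⟨_, par_card A⟩

theorem rank_mono [Fintype X] {A B : Set (X → Tree ar)} (h : A ⊆ B) : rank A ≤ rank B := by
  obtain ⟨Y, _, ρ, h1, h2⟩ := par_rank B
  exact Nat.sInf_le ⟨Y, inferInstance, ρ, h1, fun v hv => h2 v (h hv)⟩

/-- the equation `t1 = t2` holds on `A` -/
def Holds (t1 t2 : Tm ar X) (A : Set (X → Tree ar)) : Prop := ∀ v ∈ A, t1.ev v = t2.ev v

theorem rank_lt [Fintype X] {A B : Set (X → Tree ar)} (h : A ⊆ B) (hA : A.Nonempty)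
    {t1 t2 : Tm ar X} (h1 : Holds t1 t2 A) (h2 : ¬ Holds t1 t2 B) : rank A < rank B := by
  classical
  obtain ⟨Y, _, ρ, h3, h4⟩ := par_rank B
  have hne : t1.subst ρ ≠ t2.subst ρ := by
    intro he
    apply h2
    intro v hv
    obtain ⟨u, hu⟩ := h4 v hv
    have h5 := congrArg (Tm.ev u) he
    rw [ev_subst, ev_subst, ← funext hu] at h5
    exact h5
  have key : ∀ (u : Y → Tree ar) (v : X → Tree ar), v ∈ A → (∀ x, v x = (ρ x).ev u) →
      (t1.subst ρ).ev u = (t2.subst ρ).ev u := by
    intro u v hv hu
    rw [ev_subst, ev_subst, ← funext hu]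
    exact h1 v hv
  obtain ⟨v0, hv0⟩ := hA
  obtain ⟨u0, hu0⟩ := h4 v0 (h hv0)
  obtain ⟨j, r, hr⟩ := solve _ _ hne ⟨u0, key u0 v0 hv0 hu0⟩
  have hcard : Fintype.card {i // i ≠ j} = Fintype.card Y - 1 := by
    simp [Fintype.card_subtype_compl]
  have hpos : 0 < Fintype.card Y := Fintype.card_pos_iff.2 ⟨j⟩
  have hP : Par A (Fintype.card Y - 1) := by
    refine ⟨{i // i ≠ j}, inferInstance, fun x => (ρ x).subst fun y =>
      if hy : y = j then r else .var ⟨y, hy⟩, hcard.le, fun v hv => ?_⟩
    obtain ⟨u, hu⟩ := h4 v (h hv)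
    refine ⟨fun i => u i.1, fun x => ?_⟩
    rw [hu x, ev_subst]
    congr 1
    funext y
    by_cases hy : y = j
    · rw [dif_pos hy, hy]
      exact hr u (key u v hv hu)
    · rw [dif_neg hy]
      rfl
  have : rank A ≤ Fintype.card Y - 1 := Nat.sInf_le hP
  omega

/-- If all equations that hold on `A i` hold on `B i`, then all equations that hold on the product
of the sets `A i` hold on the product of the sets `B i`. -/
theorem product {k : ℕ} {A B : Fin k → Set (X → Tree ar)}
    (h : ∀ i (t1 t2 : Tm ar X), Holds t1 t2 (A i) → Holds t1 t2 (B i))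
    (t1 t2 : Tm ar (X × Fin k))
    (hA : ∀ w : Fin k → X → Tree ar, (∀ i, w i ∈ A i) →
      t1.ev (fun x => w x.2 x.1) = t2.ev (fun x => w x.2 x.1)) :
    ∀ w : Fin k → X → Tree ar, (∀ i, w i ∈ B i) →
      t1.ev (fun x => w x.2 x.1) = t2.ev (fun x => w x.2 x.1) := by
  classical
  have key : ∀ J : Finset (Fin k), ∀ w : Fin k → X → Tree ar, (∀ i ∈ J, w i ∈ B i) →
      (∀ i ∉ J, w i ∈ A i) → t1.ev (fun x => w x.2 x.1) = t2.ev (fun x => w x.2 x.1) := by
    intro J
    induction J using Finset.induction_on with
    | empty => intro w _ h2; exact hA w fun i => h2 i (by simp)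
    | insert m J hm ih =>
      intro w h1 h2
      let ρ : X × Fin k → Tm ar X := fun x => if x.2 = m then .var x.1 else (w x.2 x.1).lift
      have hρ : ∀ v : X → Tree ar, (fun x => (ρ x).ev v) =
          fun x => Function.update w m v x.2 x.1 := by
        intro v
        funext x
        by_cases hx : x.2 = m
        · simp only [ρ, hx, if_true, Function.update_self]
          rfl
        · simp only [ρ, if_neg hx, Function.update_of_ne hx, ev_lift]
      have h3 : Holds (t1.subst ρ) (t2.subst ρ) (A m) := by
        intro v hv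
        rw [ev_subst, ev_subst, hρ]
        refine ih (Function.update w m v) ?_ ?_
        · intro i hi
          have him : i ≠ m := fun h => hm (h ▸ hi)
          rw [Function.update_of_ne him]
          exact h1 i (Finset.mem_insert_of_mem hi)
        · intro i hi
          by_cases him : i = m
          · subst him
            rw [Function.update_self]
            exact hv
          · rw [Function.update_of_ne him]
            exact h2 i (by simp [him, hi])
      have h4 := h m _ _ h3 (w m) (h1 m (Finset.mem_insert_self _ _))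
      rw [ev_subst, ev_subst, hρ, Function.update_eq_self] at h4
      exact h4
  intro w hw
  exact key Finset.univ w (fun i _ => hw i) (fun i hi => absurd (Finset.mem_univ i) hi)

theorem rhs_isSome (t : Tm ar X) (e : X → Option (Tree ar)) :
    (t.rhs e).isSome ↔ ∀ x, t.occ x → (e x).isSome := by
  induction t with
  | var x =>
    constructor
    · rintro h y rfl
      exact h
    · intro h
      exact h x rfl
  | node f ch ih =>
    rw [Tm.rhs]
    constructor
    · intro h
      split_ifs at h with h1
      · rintro x ⟨i, hi⟩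
        exact (ih i).1 (h1 i) x hi
      · simp at h
    · intro h
      rw [dif_pos fun i => (ih i).2 fun x hx => h x ⟨i, hx⟩]
      rfl

theorem rhs_eq (t : Tm ar X) (e : X → Option (Tree ar)) (d : Tree ar)
    (h : (t.rhs e).isSome) : t.rhs e = some (t.ev fun x => (e x).getD d) := by
  induction t with
  | var x =>
    obtain ⟨a, ha⟩ := Option.isSome_iff_exists.1 h
    have ha' : e x = some a := ha
    simp only [Tm.rhs, Tm.ev, ha', Option.getD_some]
  | node f ch ih =>
    have h1 : ∀ i, ((ch i).rhs e).isSome := fun i =>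
      (rhs_isSome _ _).2 fun x hx => (rhs_isSome _ _).1 h x ⟨i, hx⟩
    rw [Tm.rhs, dif_pos h1]
    simp only [Tm.ev]
    congr 2
    funext i
    have h2 := ih i (h1 i)
    simp only [h2, Option.get_some]

theorem rhs_subst_var (t : Tm ar X) (g : X → Y) (e : Y → Option (Tree ar)) :
    (t.subst fun x => .var (g x)).rhs e = t.rhs fun x => e (g x) := by
  induction t with
  | var x => rfl
  | node f ch ih => simp only [Tm.subst, Tm.rhs, ih]

end Terms

/-! ### Transducers -/

section Main

variable (M : DT rS rD)

theorem out_node (σ : S) (ch : Fin (rS σ) → Tree rS) (q : M.Q) :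
    M.out (.node σ ch) q = (M.R q σ).bind fun ζ => ζ.rhs fun x => M.out (ch x.2) x.1 := by
  rw [DT.out]
  cases M.R q σ <;> rfl

open scoped Classical in
/-- the set of the states with an output on `s` -/
noncomputable def dom (s : Tree rS) : Finset M.Q :=
  Finset.univ.filter fun q => (M.out s q).isSome = true

theorem mem_dom {s : Tree rS} {q : M.Q} : q ∈ dom M s ↔ (M.out s q).isSome = true := by
  simp [dom]

theorem mem_dom_node {σ : S} {ch : Fin (rS σ) → Tree rS} {q : M.Q} :
    q ∈ dom M (.node σ ch) ↔ ∃ ζ, M.R q σ = some ζ ∧ ∀ x, ζ.occ x → x.1 ∈ dom M (ch x.2) := by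
  rw [mem_dom, out_node]
  cases h : M.R q σ with
  | none => simp
  | some ζ =>
    simp only [Option.bind_some, rhs_isSome, Option.some.injEq, exists_eq_left', mem_dom]

theorem dom_node {σ : S} {ch ch' : Fin (rS σ) → Tree rS} (h : ∀ i, dom M (ch i) = dom M (ch' i)) :
    dom M (.node σ ch) = dom M (.node σ ch') := by
  ext q
  rw [mem_dom_node, mem_dom_node]
  simp only [h]

/-- the vector of the outputs on `s`, with a default value `d` -/
def vl (d : Tree rD) (s : Tree rS) : M.Q → Tree rD := fun q => (M.out s q).getD d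

open scoped Classical in
/-- the terms that give the vector of a tree from the vectors of the subtrees -/
noncomputable def trm (d : Tree rD) (σ : S) (P : Finset M.Q) (q : M.Q) :
    Tm rD (M.Q × Fin (rS σ)) :=
  if q ∈ P then (M.R q σ).getD d.lift else d.lift

theorem vl_node (d : Tree rD) (σ : S) (ch : Fin (rS σ) → Tree rS) (P : Finset M.Q)
    (hP : dom M (.node σ ch) = P) :
    vl M d (.node σ ch) = fun q => (trm M d σ P q).ev fun x => vl M d (ch x.2) x.1 := by
  funext q
  unfold vl trm
  split_ifs with hq
  · rw [← hP, mem_dom] at hq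
    rw [out_node] at hq ⊢
    cases h : M.R q σ with
    | none => rw [h] at hq; simp at hq
    | some ζ =>
      rw [h] at hq
      simp only [Option.bind_some, Option.getD_some] at hq ⊢
      rw [rhs_eq _ _ d hq]
      rfl
  · rw [← hP, mem_dom] at hq
    rw [ev_lift]
    have : M.out (.node σ ch) q = none := by simpa using hq
    rw [this]
    rfl

/-- the vectors of the trees of height at most `h` with the set `P` of states with an output -/
def U (d : Tree rD) (h : ℕ) (P : Finset M.Q) : Set (M.Q → Tree rD) :=
  {v | ∃ s : Tree rS, s.height ≤ h ∧ dom M s = P ∧ vl M d s = v}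

theorem U_mono (d : Tree rD) {h h' : ℕ} (hh : h ≤ h') (P : Finset M.Q) : U M d h P ⊆ U M d h' P :=
  fun _ ⟨s, h1, h2, h3⟩ => ⟨s, h1.trans hh, h2, h3⟩

/-- nothing new appears at height `h + 1` -/
def Stable (d : Tree rD) (h : ℕ) : Prop :=
  ∀ P, ((U M d (h + 1) P).Nonempty → (U M d h P).Nonempty) ∧
    ∀ t1 t2 : Tm rD M.Q, Holds t1 t2 (U M d h P) → Holds t1 t2 (U M d (h + 1) P)

theorem height_ch {σ : S} {ch : Fin (rS σ) → Tree rS} {h : ℕ}
    (hh : (Tree.node σ ch).height ≤ h + 1) (i : Fin (rS σ)) : (ch i).height ≤ h := by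
  have h1 : (ch i).height ≤ Finset.univ.sup fun i => (ch i).height :=
    Finset.le_sup (f := fun i => (ch i).height) (Finset.mem_univ i)
  rw [Tree.height] at hh
  omega

theorem height_node {σ : S} {ch : Fin (rS σ) → Tree rS} {h : ℕ}
    (hh : ∀ i, (ch i).height ≤ h) : (Tree.node σ ch).height ≤ h + 1 := by
  have h1 : (Finset.univ.sup fun i => (ch i).height) ≤ h := Finset.sup_le fun i _ => hh i
  rw [Tree.height]
  omega

theorem stable_succ (d : Tree rD) {h : ℕ} (hst : Stable M d h) : Stable M d (h + 1) := by
  intro P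
  constructor
  · rintro ⟨v, ⟨σ, ch⟩, hs, hP, hv⟩
    have h1 : ∀ i, ∃ s', s'.height ≤ h ∧ dom M s' = dom M (ch i) := by
      intro i
      obtain ⟨_, s', h2, h3, _⟩ := (hst (dom M (ch i))).1
        ⟨_, ch i, height_ch hs i, rfl, rfl⟩
      exact ⟨s', h2, h3⟩
    choose ch' h2 h3 using h1
    refine ⟨_, .node σ ch', height_node h2, ?_, rfl⟩
    rw [← hP]
    exact dom_node M h3
  · intro t1 t2 ht v
    rintro ⟨⟨σ, ch⟩, hs, hP, hv⟩
    rw [← hv, vl_node M d σ ch P hP, ← ev_subst, ← ev_subst]
    refine product (A := fun i => U M d h (dom M (ch i)))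
      (B := fun i => U M d (h + 1) (dom M (ch i))) (fun i => (hst _).2) _ _ ?_
      (fun i => vl M d (ch i)) fun i => ⟨ch i, height_ch hs i, rfl, rfl⟩
    intro w hw
    choose ch' h1 h2 h3 using hw
    have h4 : dom M (.node σ ch') = P := by rw [← hP]; exact dom_node M h2
    have h5 := ht (vl M d (.node σ ch')) ⟨_, height_node h1, h4, rfl⟩
    rw [vl_node M d σ ch' P h4, ← ev_subst, ← ev_subst] at h5
    simp only [h3] at h5
    exact h5

open scoped Classical in
/-- the potential -/
noncomputable def mu (d : Tree rD) (h : ℕ) : ℕ :=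
  ∑ P : Finset M.Q, if (U M d h P).Nonempty then 1 + rank (U M d h P) else 0

theorem mu_le (d : Tree rD) (h : ℕ) :
    mu M d h ≤ 2 ^ Fintype.card M.Q * (Fintype.card M.Q + 1) := by
  unfold mu
  refine (Finset.sum_le_card_nsmul _ _ (Fintype.card M.Q + 1) fun P _ => ?_).trans (le_of_eq ?_)
  · have := rank_le (U M d h P)
    split_ifs <;> omega
  · rw [Finset.card_univ, Fintype.card_finset, smul_eq_mul]

theorem mu_lt (d : Tree rD) {h : ℕ} (hst : ¬ Stable M d h) : mu M d h < mu M d (h + 1) := by
  unfold Stable at hst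
  push Not at hst
  obtain ⟨P, hP⟩ := hst
  refine Finset.sum_lt_sum (fun P' _ => ?_) ⟨P, Finset.mem_univ _, ?_⟩
  · have h1 := rank_mono (U_mono M d (show h ≤ h + 1 by omega) P')
    by_cases h2 : (U M d h P').Nonempty
    · have h3 : (U M d (h + 1) P').Nonempty := h2.mono (U_mono M d (show h ≤ h + 1 by omega) P')
      rw [if_pos h2, if_pos h3]
      omega
    · rw [if_neg h2]
      exact Nat.zero_le _
  · by_cases h2 : (U M d h P).Nonempty
    · have h3 : (U M d (h + 1) P).Nonempty := h2.mono (U_mono M d (show h ≤ h + 1 by omega) P)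
      obtain ⟨t1, t2, h4, h5⟩ := hP fun _ => h2
      rw [if_pos h2, if_pos h3]
      have := rank_lt (U_mono M d (show h ≤ h + 1 by omega) P) h2 h4 h5
      omega
    · rw [if_neg h2]
      by_cases h3 : (U M d (h + 1) P).Nonempty
      · rw [if_pos h3]
        omega
      · exfalso
        obtain ⟨t1, t2, h4, h5⟩ := hP fun h => absurd h h3
        apply h5
        intro v hv
        exact absurd ⟨v, hv⟩ h3

theorem exists_stable (d : Tree rD) :
    ∃ h, h ≤ 2 ^ Fintype.card M.Q * (Fintype.card M.Q + 1) ∧ Stable M d h := by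
  by_contra hcon
  push Not at hcon
  have key : ∀ h, h ≤ 2 ^ Fintype.card M.Q * (Fintype.card M.Q + 1) + 1 → h ≤ mu M d h := by
    intro h
    induction h with
    | zero => intro _; exact Nat.zero_le _
    | succ h ih =>
      intro hh
      have h1 := ih (by omega)
      have h2 := mu_lt M d (hcon h (by omega))
      omega
  have h1 := key _ le_rfl
  have h2 := mu_le M d (2 ^ Fintype.card M.Q * (Fintype.card M.Q + 1) + 1)
  omega

/-- the main lemma, for two states of one transducer -/
theorem main_single (p q : M.Q)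
    (h : ∀ s : Tree rS, s.height ≤ 2 ^ Fintype.card M.Q * (Fintype.card M.Q + 1) →
      M.out s p = M.out s q) (s : Tree rS) : M.out s p = M.out s q := by
  rcases isEmpty_or_nonempty (Tree rD) with hE | ⟨⟨d⟩⟩
  · have h1 : ∀ o : Option (Tree rD), o = none := by
      intro o
      cases o with
      | none => rfl
      | some t => exact hE.elim t
    rw [h1 (M.out s p), h1 (M.out s q)]
  · obtain ⟨h0, hh0, hst⟩ := exists_stable M d
    have hst' : ∀ k, Stable M d (h0 + k) := by
      intro k
      induction k with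
      | zero => exact hst
      | succ k ih => exact stable_succ M d ih
    have key : ∀ k P, ((U M d (h0 + k) P).Nonempty → (U M d h0 P).Nonempty) ∧
        ∀ t1 t2 : Tm rD M.Q, Holds t1 t2 (U M d h0 P) → Holds t1 t2 (U M d (h0 + k) P) := by
      intro k P
      induction k with
      | zero => exact ⟨id, fun _ _ => id⟩
      | succ k ih => exact ⟨fun h => ih.1 ((hst' k P).1 h), fun t1 t2 h =>
          (hst' k P).2 _ _ (ih.2 _ _ h)⟩
    have hs : vl M d s ∈ U M d (h0 + s.height) (dom M s) := ⟨s, by omega, rfl, rfl⟩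
    obtain ⟨_, s', h1, h2, _⟩ := (key s.height (dom M s)).1 ⟨_, hs⟩
    have h3 := h s' (h1.trans hh0)
    have h4 : p ∈ dom M s ↔ q ∈ dom M s := by
      rw [← h2, mem_dom, mem_dom, h3]
    by_cases hp : p ∈ dom M s
    · have hq := h4.1 hp
      have h5 : Holds (.var p) (.var q) (U M d h0 (dom M s)) := by
        rintro v ⟨s'', h6, _, rfl⟩
        change (M.out s'' p).getD d = (M.out s'' q).getD d
        rw [h s'' (h6.trans hh0)]
      have h6 := (key s.height (dom M s)).2 _ _ h5 _ hs
      have h7 : (M.out s p).getD d = (M.out s q).getD d := h6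
      rw [mem_dom] at hp hq
      obtain ⟨a, ha⟩ := Option.isSome_iff_exists.1 hp
      obtain ⟨b, hb⟩ := Option.isSome_iff_exists.1 hq
      rw [ha, hb] at h7 ⊢
      simpa using h7
    · have hq : q ∉ dom M s := fun h => hp (h4.2 h)
      rw [mem_dom] at hp hq
      have e1 : M.out s p = none := by simpa using hp
      have e2 : M.out s q = none := by simpa using hq
      rw [e1, e2]

end Main

/-- the disjoint union of two transducers -/
def union (M1 M2 : DT rS rD) : DT rS rD where
  Q := M1.Q ⊕ M2.Q
  q0 := .inl M1.q0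
  R := fun q σ => match q with
    | .inl q => (M1.R q σ).map fun ζ => ζ.subst fun x => .var (.inl x.1, x.2)
    | .inr q => (M2.R q σ).map fun ζ => ζ.subst fun x => .var (.inr x.1, x.2)

theorem union_inl (M1 M2 : DT rS rD) (s : Tree rS) : ∀ q : M1.Q,
    (union M1 M2).out s (.inl q) = M1.out s q := by
  induction s with
  | node σ ch ih =>
    intro q
    refine (out_node (union M1 M2) σ ch (.inl q)).trans ?_
    rw [out_node]
    have hR : (union M1 M2).R (.inl q) σ = (M1.R q σ).map fun ζ =>
      ζ.subst fun x => .var ((.inl x.1 : (union M1 M2).Q), x.2) := rfl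
    rw [hR]
    cases M1.R q σ with
    | none => rfl
    | some ζ =>
      refine (rhs_subst_var ζ (fun x => ((.inl x.1 : (union M1 M2).Q), x.2)) _).trans ?_
      refine congrArg (fun e => Tm.rhs e ζ) ?_
      funext x
      exact ih x.2 x.1

theorem union_inr (M1 M2 : DT rS rD) (s : Tree rS) : ∀ q : M2.Q,
    (union M1 M2).out s (.inr q) = M2.out s q := by
  induction s with
  | node σ ch ih =>
    intro q
    refine (out_node (union M1 M2) σ ch (.inr q)).trans ?_
    rw [out_node]
    have hR : (union M1 M2).R (.inr q) σ = (M2.R q σ).map fun ζ =>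
      ζ.subst fun x => .var ((.inr x.1 : (union M1 M2).Q), x.2) := rfl
    rw [hR]
    cases M2.R q σ with
    | none => rfl
    | some ζ =>
      refine (rhs_subst_var ζ (fun x => ((.inr x.1 : (union M1 M2).Q), x.2)) _).trans ?_
      refine congrArg (fun e => Tm.rhs e ζ) ?_
      funext x
      exact ih x.2 x.1

/-- **There is a height bound that depends only on the numbers of states**, and
`H(n₁, n₂) = 2 ^ (n₁ + n₂) * (n₁ + n₂ + 1)` is such a bound: two deterministic top-down tree
transducers with `n₁` and `n₂` states (over arbitrary ranked alphabets) that agree on all input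
trees of height at most `H(n₁, n₂)` are equivalent. -/
theorem result : ∃ H : ℕ → ℕ → ℕ,
    (∀ n₁ n₂, H n₁ n₂ = 2 ^ (n₁ + n₂) * (n₁ + n₂ + 1)) ∧
    ∀ (S D : Type) (rS : S → ℕ) (rD : D → ℕ) (M₁ M₂ : DT rS rD),
      (∀ s : Tree rS, s.height ≤ H (Fintype.card M₁.Q) (Fintype.card M₂.Q) → M₁.τ s = M₂.τ s) →
      ∀ s : Tree rS, M₁.τ s = M₂.τ s := by
  refine ⟨fun n₁ n₂ => 2 ^ (n₁ + n₂) * (n₁ + n₂ + 1), fun _ _ => rfl, ?_⟩
  intro S D rS rD M₁ M₂ h s
  have h1 := main_single (union M₁ M₂) (.inl M₁.q0) (.inr M₂.q0) (by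
    intro s hs
    rw [union_inl, union_inr]
    refine h s (hs.trans (le_of_eq ?_))
    change 2 ^ Fintype.card (M₁.Q ⊕ M₂.Q) * (Fintype.card (M₁.Q ⊕ M₂.Q) + 1) = _
    rw [Fintype.card_sum]) s
  rw [union_inl, union_inr] at h1
  exact h1

end Pool.Agent.Results.MP_460c01_lc.StateHeightBound
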